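import Pool.Agent.L0h17.WT.Stm

set_option autoImplicit false

namespace Pool.Agent.L0h36.WT

open MvPolynomial Pool.Agent.N103 Pool.Agent.N103.V Pool.Agent.L0h21.SN Pool.Agent.L0h21.RW
  Pool.Agent.L0h17.WT

variable {V : Type} {F : MvPolynomial V ℂ} {e0 : ℂ}
  {S : Set (ℕ → MvPolynomial V ℂ →ₗ[ℂ] ℂ)}

theorem step (hS : IsPer' F e0 S) (he : ∀ n : ℕ, e0 ≠ n)
    {c : ℕ → MvPolynomial V ℂ →ₗ[ℂ] ℂ} (hc : c ∈ S) (k m : ℕ) (h : MvPolynomial V ℂ) :
    c (k + m) (F ^ m * h) = 0 ↔ c k h = 0 := by
  induction m with
  | zero => simp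
  | succ m ih =>
    rw [← ih, ← add_assoc, pow_succ', mul_assoc, hS.e2 c hc]
    rw [mul_eq_zero]
    constructor
    · rintro (h0 | h0)
      · exact absurd (by linear_combination -h0) (he (k + m))
      · exact h0
    · exact Or.inr

theorem t_EVP : S_EVP := by
  classical
  intro V F H e0 he ⟨S, hS, c0, hc0, hH⟩ hE
  by_cases hF : F = 0
  · subst hF
    apply hH
    have h1 := hS.e2 c0 hc0 0 H
    rw [zero_mul, map_zero] at h1
    rcases mul_eq_zero.1 h1.symm with h2 | h2
    · exact absurd (by linear_combination -h2) (he 0)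
    · exact h2
  have hM : Submonoid.powers F ≤ nonZeroDivisors (MvPolynomial V ℂ) :=
    powers_le_nonZeroDivisors_of_noZeroDivisors hF
  have hinj : Function.Injective (algebraMap (MvPolynomial V ℂ) (Localization.Away F)) :=
    IsLocalization.injective _ hM
  set jj := algebraMap (MvPolynomial V ℂ) (Localization.Away F) with hal
  have hder : ∀ i : V, ∃ E : Derivation ℂ (Localization.Away F)
      (Localization.Away F), ∀ x, E (jj x) = jj (pderiv i x) := fun i =>
    exists_locDer (B := Localization.Away F) (Submonoid.powers F) (pderiv i)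
  choose D hD using hder
  obtain ⟨Gi, hGi⟩ :=
    (IsLocalization.Away.algebraMap_isUnit (S := Localization.Away F) F).exists_right_inv
  have hGi' : jj F * Gi = 1 := hGi
  set φ : MvPolynomial V ℂ →ₐ[ℂ] Localization.Away F :=
    IsScalarTower.toAlgHom ℂ (MvPolynomial V ℂ) (Localization.Away F) with hφ
  have hφa : ∀ x, φ x = jj x := fun x => rfl
  have halg : ∀ z : ℂ, algebraMap ℂ (Localization.Away F) z = jj (C z) := by
    intro z
    rw [IsScalarTower.algebraMap_apply ℂ (MvPolynomial V ℂ) (Localization.Away F)]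
    rfl
  -- representatives
  have hrep : ∀ x : Localization.Away F, ∃ (k : ℕ) (h : MvPolynomial V ℂ), jj h = jj F ^ k * x := by
    intro x
    obtain ⟨k, h, hk⟩ := IsLocalization.Away.surj F x
    exact ⟨k, h, by rw [← hk, mul_comm]⟩
  let P : Localization.Away F → Prop := fun x =>
    ∀ c ∈ S, ∀ (k : ℕ) (h : MvPolynomial V ℂ), jj h = jj F ^ k * x → c k h = 0
  have hof : ∀ (x : Localization.Away F) (k : ℕ) (h : MvPolynomial V ℂ), jj h = jj F ^ k * x →
      (∀ c ∈ S, c k h = 0) → P x := by
    intro x k h hk hz c hc k' h' hk'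
    have h1 : F ^ k' * h = F ^ k * h' := by
      apply hinj
      rw [map_mul, map_mul, map_pow, map_pow, hk, hk']
      ring
    rw [← step hS he hc k' k h', ← h1, add_comm k' k, step hS he hc k k' h]
    exact hz c hc
  let U : Submodule ℂ (Localization.Away F) :=
    { carrier := {x | P x}
      add_mem' := by
        intro x y hx hy
        obtain ⟨k, h, hk⟩ := hrep x
        obtain ⟨l, g, hl⟩ := hrep y
        refine hof _ (k + l) (F ^ l * h + F ^ k * g) ?_ ?_
        · rw [map_add, map_mul, map_mul, map_pow, map_pow, hk, hl]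
          ring
        · intro c hc
          rw [map_add]
          rw [hx c hc (k + l) (F ^ l * h) (by rw [map_mul, map_pow, hk]; ring),
            hy c hc (k + l) (F ^ k * g) (by rw [map_mul, map_pow, hl]; ring), add_zero]
      zero_mem' := by
        refine hof _ 0 0 (by simp) ?_
        intro c _
        rw [map_zero]
      smul_mem' := by
        intro z x hx
        obtain ⟨k, h, hk⟩ := hrep x
        refine hof _ k (z • h) ?_ ?_
        · rw [MvPolynomial.smul_eq_C_mul, map_mul, hk, Algebra.smul_def, halg]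
          ring
        · intro c hc
          rw [map_smul, hx c hc k h hk, smul_zero] }
  have h2 : ∀ i, ∀ x ∈ U, nab φ D F Gi e0 i x ∈ U := by
    intro i x hx
    obtain ⟨k, h, hk⟩ := hrep x
    have hDx : jj F ^ (k + 1) * D i x = jj F * jj (pderiv i h) - k * jj (pderiv i F) * jj h := by
      have h3 : D i (jj h) = D i (jj F ^ k * x) := by rw [hk]
      rw [hD, Derivation.leibniz, Derivation.leibniz_pow, smul_eq_mul, smul_eq_mul, smul_eq_mul,
        nsmul_eq_mul, hD] at h3
      rcases k with _ | k
      · simp only [pow_zero, one_mul, Nat.cast_zero, zero_mul, mul_zero, add_zero, sub_zero,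
          zero_add, pow_one] at h3 ⊢
        rw [h3]
      · rw [h3, hk, Nat.add_sub_cancel]
        ring
    refine hof _ (k + 1) (F * pderiv i h + C (e0 - k) * (pderiv i F * h)) ?_ ?_
    · rw [nab_apply, mul_add, hDx, map_add, map_mul, map_mul, map_mul, hφa, hD, ← halg, map_sub,
        map_natCast, hk]
      linear_combination (-(algebraMap ℂ (Localization.Away F) e0 * jj (pderiv i F) * jj F ^ k * x))
        * hGi'
    · intro c hc
      obtain ⟨c', hc', h5⟩ := hS.d2 c hc i
      rw [map_add, hS.e2 c hc, ← MvPolynomial.smul_eq_C_mul, map_smul, smul_eq_mul]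
      have h6 := h5 k h
      rw [hx c' hc' k h hk] at h6
      linear_combination ((k : ℂ) - e0) * h6
  have hmem : φ H ∈ U := by
    refine hE (Localization.Away F) φ D Gi (fun i x => hD i x) (by rw [hφa]; exact hGi') U ?_ h2
      ?_ ?_
    · intro i x hx
      obtain ⟨k, h, hk⟩ := hrep x
      refine hof _ k (X i * h) ?_ ?_
      · rw [map_mul, hk, hφa]
        ring
      · intro c hc
        obtain ⟨c', hc', h5⟩ := hS.mu c hc i
        rw [h5, hx c' hc' k h hk]
    · refine hof _ 0 F (by rw [pow_zero, one_mul, hφa]) ?_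
      intro c hc
      have h3 := hS.e1 c hc 1
      rwa [mul_one] at h3
    · intro i
      refine hof _ 0 (pderiv i F) (by rw [pow_zero, one_mul, hφa]) ?_
      intro c hc
      have h3 := hS.d1 c hc i 1
      rwa [mul_one] at h3
  exact hH (hmem c0 hc0 0 H (by rw [pow_zero, one_mul, hφa]))

end Pool.Agent.L0h36.WT
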